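import Mathlib
import Pool.Agent.R685.PS.All2

/-! The equality case of the Patterson-Sullivan intersection function on Outer space. -/

open MeasureTheory
open scoped ENNReal

namespace Pool.Agent.Results.MP_79396e_al.PSIntersectionEquality

open Pool.Agent.R685.PS

/-- For `N ≥ 2` and `T, S` in `cv_N` of volume one (in their natural simplicial structure), with
Patterson-Sullivan currents `μT`, `μS` normalised by `⟨T, μT⟩ = 1 = ⟨S, μS⟩`, one has
`⟨S, μT⟩ * ⟨T, μS⟩ = 1` if and only if `T` and `S` are equivariantly isometric. -/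
theorem result : ∀ (N : ℕ), 2 ≤ N → ∀ (T S : CV N) (μT μS : Measure (Bd N × Bd N)),
    T.Reduced → S.Reduced → T.vol = 1 → S.vol = 1 → T.IsPSCurrent μT → S.IsPSCurrent μS →
    (S.inter μT * T.inter μS = 1 ↔ T.Isom S) :=
  All2.all

end Pool.Agent.Results.MP_79396e_al.PSIntersectionEquality
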